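import Pool.Agent.NH87.HC.Cases

/-!
# Heavy directed cycles, when the arcs leaving a vertex have comparable weights

Bollobás and Scott asked whether a strong digraph with positive arc weights, all of whose vertices have
weighted in- and out-degree at least one, has a directed cycle of weight at least one. This holds if all
arcs leaving a vertex have the same weight: some cycle has weight at least `n / (n - 1)`, which is the
value for the complete digraph with equal weights. If the weights of the arcs leaving a vertex differ at
most by a factor `1 / r`, then some cycle has weight at least `r n / (n - 1)`. All this follows from a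
bound in terms of lower bounds for the weights of the arcs leaving the vertices, and holds for the
digraph and for its reverse (arcs entering a vertex).

Proof idea. The cycle through all in-neighbours of the first vertex of a path that cannot be extended.
-/

set_option autoImplicit false

namespace Pool.Agent.Results.MP_395f85_co.ComparableArcs

open Finset

/-- There is a directed cycle, with the distinct vertices `f 0, …, f (k + 1)` in this order, of weight at
least `c`. The arcs of the digraph of the weight function `w` are the pairs of positive weight. -/
def HeavyCycle {V : Type} (w : V → V → ℝ) (c : ℝ) : Prop :=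
  ∃ (k : ℕ) (f : Fin (k + 2) → V), Function.Injective f ∧
    (∀ i, 0 < w (f i) (f (finRotate (k + 2) i))) ∧
    c ≤ ∑ i, w (f i) (f (finRotate (k + 2) i))

open scoped Classical in
/-- Let `w` be the weight function of a weighted digraph with the finite vertex set `V`, and let `w'` be
`w` or the weight function of the reversed digraph. If `φ u ≥ 0` is a lower bound for the weights of the
arcs of `w'` leaving `u`, every vertex has an in-neighbour for `w'`, and the sum of `φ` over `v` and its
in-neighbours for `w'` is at least `d` for all `v`, then some cycle of `w` has weight at least `d`.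
Consequently, if all weighted in- and out-degrees are at least `1`, and any two arcs of `w'` leaving the
same vertex have weights with ratio at least `r`, then some cycle of `w` has weight at least
`r n / (n - 1)`. -/
theorem result (V : Type) [Fintype V] [Nonempty V] (w w' : V → V → ℝ)
    (h0 : ∀ u v, 0 ≤ w u v) (hl : ∀ v, w v v = 0) (hw : w' = w ∨ w' = fun u v => w v u) :
    (∀ (φ : V → ℝ) (d : ℝ), (∀ u, 0 ≤ φ u) → (∀ u v, 0 < w' u v → φ u ≤ w' u v) →
      (∀ v, ∃ u, 0 < w' u v) → (∀ v, d ≤ φ v + ∑ u ∈ univ.filter (fun u => 0 < w' u v), φ u) →
      HeavyCycle w d) ∧
    (∀ r, 0 < r → (∀ u v v', 0 < w' u v → 0 < w' u v' → r * w' u v' ≤ w' u v) →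
      (∀ v, 1 ≤ ∑ u, w u v) → (∀ v, 1 ≤ ∑ u, w v u) →
      HeavyCycle w (r * Fintype.card V / (Fintype.card V - 1))) := by
  rcases hw with rfl | rfl
  · refine ⟨?_, ?_⟩
    · intro φ d h3 h4 h5 h6
      exact Pool.Agent.NH87.HC.tail_heavy _ hl φ h3 h4 d _ (fun v u => by simp) h5 h6
    · intro r hr hrat hin hout
      exact Pool.Agent.NH87.HC.ratio_tail _ h0 hl r hr hrat hin hout
  · refine ⟨?_, ?_⟩
    · intro φ d h3 h4 h5 h6
      exact Pool.Agent.NH87.HC.head_heavy w hl φ h3 h4 d _ (fun v u => by simp) h5 h6
    · intro r hr hrat hin hout
      exact Pool.Agent.NH87.HC.ratio_head w h0 hl r hr hrat hin hout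

end Pool.Agent.Results.MP_395f85_co.ComparableArcs
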