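import Pool.Agent.NH87.HC.Cases

/-!
# Heavy directed cycles in digraphs with degrees at most the girth

Bollobás and Scott asked whether a strong digraph with positive arc weights, all of whose vertices have
weighted in- and out-degree at least one, has a directed cycle of weight at least one. This holds if all
out-degrees (or all in-degrees) are at most the girth, for instance if they are at most two, or at most
three in digraphs without 2-cycles.

Proof idea. Follow the heaviest arcs.
-/

set_option autoImplicit false

namespace Pool.Agent.Results.MP_395f85_co.DegreeAtMostGirth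

open Finset

/-- There is a directed cycle, with the distinct vertices `f 0, …, f (k + 1)` in this order, of weight at
least `c`. The arcs of the digraph of the weight function `w` are the pairs of positive weight. -/
def HeavyCycle {V : Type} (w : V → V → ℝ) (c : ℝ) : Prop :=
  ∃ (k : ℕ) (f : Fin (k + 2) → V), Function.Injective f ∧
    (∀ i, 0 < w (f i) (f (finRotate (k + 2) i))) ∧
    c ≤ ∑ i, w (f i) (f (finRotate (k + 2) i))

/-- All directed cycles have at least `g` vertices. -/
def GirthAtLeast {V : Type} (w : V → V → ℝ) (g : ℕ) : Prop :=
  ∀ (k : ℕ) (f : Fin (k + 2) → V), Function.Injective f →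
    (∀ i, 0 < w (f i) (f (finRotate (k + 2) i))) → g ≤ k + 2

open scoped Classical in
/-- Let `w` be the weight function of a weighted digraph with the finite vertex set `V`, and let `w'` be
`w` or the weight function of the reversed digraph. If all weighted out-degrees of `w'` are at least `1`,
and all out-degrees of `w'` are at most `g`, where all directed cycles have at least `g` vertices, then
some cycle has weight at least `1`. -/
theorem result (V : Type) [Fintype V] [Nonempty V] (w w' : V → V → ℝ)
    (h0 : ∀ u v, 0 ≤ w u v) (hl : ∀ v, w v v = 0) (hw : w' = w ∨ w' = fun u v => w v u)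
    (g : ℕ) (hg : GirthAtLeast w g) (hdeg : ∀ v, (univ.filter fun u => 0 < w' v u).card ≤ g)
    (h1 : ∀ v, 1 ≤ ∑ u, w' v u) : HeavyCycle w 1 := by
  rcases hw with rfl | rfl
  · exact Pool.Agent.NH87.HC.girth_out _ h0 hl g hg _ (fun v u => by simp) hdeg h1
  · exact Pool.Agent.NH87.HC.girth_in w h0 hl g hg _ (fun v u => by simp) hdeg h1

end Pool.Agent.Results.MP_395f85_co.DegreeAtMostGirth
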